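import Pool.Agent.Helper6.BA.ResGlue
import Pool.Agent.Helper29.BA.ACDef
import Pool.Agent.Helper33.HM.Iter

/-!
# BA-R10: every name of a set is given by a raw name
-/

set_option autoImplicit false
set_option linter.unusedSectionVars false

namespace Pool.Agent.Helper94.BA

open Pool.Agent.Helper33.HM

universe u

section Iter

variable {P₀ I : Type u} [Preorder P₀] [LinearOrder I]
variable {F G : I → Set (Name P₀ I)} {i ℓ : I}

theorem h64_exists_antichain (h₀ : AC (Cnd F ℓ)) (U : RO (Cnd F ℓ)) :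
    ∃ A : Set (Cnd F ℓ), A.Countable ∧ RO.gen A = U := by
  classical
  let S : Set (Set (Cnd F ℓ)) := {A | (∀ p ∈ A, p ∈ U) ∧
    ∀ p ∈ A, ∀ q ∈ A, p ≠ q → ¬ ∃ r, r ≤ p ∧ r ≤ q}
  have hz : ∀ c ⊆ S, IsChain (· ⊆ ·) c → ∃ ub ∈ S, ∀ s ∈ c, s ⊆ ub := by
    intro c hc hch
    refine ⟨⋃₀ c, ⟨?_, ?_⟩, fun s hs => Set.subset_sUnion_of_mem hs⟩
    · rintro p ⟨s, hs, hp⟩
      exact (hc hs).1 p hp
    · rintro p ⟨s, hs, hp⟩ q ⟨t, ht, hq⟩ hne
      rcases hch.total hs ht with h | h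
      · exact (hc ht).2 p (h hp) q hq hne
      · exact (hc hs).2 p hp q (h hq) hne
  obtain ⟨A, hA⟩ := zorn_subset S hz
  have hAS : A ∈ S := hA.prop
  refine ⟨A, h₀ A hAS.2, RO.ext' fun p => ⟨fun hp => ?_, fun hp => ?_⟩⟩
  · refine RO.mem_reg fun q hq => ?_
    obtain ⟨r, hr, a, ha, hra⟩ := RO.mem_gen.1 hp q hq
    exact ⟨r, hr, RO.mem_lower hra (hAS.1 a ha)⟩
  · rw [RO.mem_gen]
    intro q hq
    by_contra hcon
    push Not at hcon
    have hqU : q ∈ U := RO.mem_lower hq hp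
    have hin : insert q A ∈ S := by
      refine ⟨?_, ?_⟩
      · rintro x (rfl | hx)
        · exact hqU
        · exact hAS.1 x hx
      · rintro x (rfl | hx) y (rfl | hy) hne
        · exact absurd rfl hne
        · rintro ⟨r, hr1, hr2⟩
          exact hcon r hr1 y hy hr2
        · rintro ⟨r, hr1, hr2⟩
          exact hcon r hr2 x hx hr1
        · exact hAS.2 x hx y hy hne
    have hqA : q ∈ A := hA.le_of_ge hin (Set.subset_insert q A) (Set.mem_insert q A)
    exact hcon q le_rfl q hqA le_rfl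

/-- Every name of a set is given by a raw name. -/
theorem exists_name (h₀ : AC (Cnd F ℓ)) (hne : Nonempty (Cnd F ℓ)) (y : ℕ → RO (Cnd F ℓ)) :
    ∃ Y : Name P₀ I, (∀ n k, (Y.1 n k).Valid F ∧ (Y.1 n k).lt ℓ) ∧ valN Y = y := by
  classical
  obtain ⟨p₀⟩ := hne
  have key : ∀ n, ∃ (f : ℕ → Cnd F ℓ) (v : ℕ → Bool),
      RO.gen {p | ∃ k, v k = true ∧ p = f k} = (y n)ᶜ := by
    intro n
    obtain ⟨A, hA, hg⟩ := h64_exists_antichain h₀ (y n)ᶜ
    rcases A.eq_empty_or_nonempty with rfl | hne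
    · refine ⟨fun _ => p₀, fun _ => false, ?_⟩
      rw [← hg]
      congr 1
      ext p
      simp
    · obtain ⟨f, hf⟩ := hA.exists_eq_range hne
      refine ⟨f, fun _ => true, ?_⟩
      rw [← hg]
      congr 1
      ext p
      rw [hf]
      simp only [Set.mem_ofPred_eq, Set.mem_range, true_and]
      exact ⟨fun ⟨k, hk⟩ => ⟨k, hk.symm⟩, fun ⟨k, hk⟩ => ⟨k, hk.symm⟩⟩
  choose f v hfv using key
  refine ⟨(fun n k => (f n k).1, v), fun n k => (f n k).2, ?_⟩
  funext n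
  have : ({p : Cnd F ℓ | ∃ k, v n k = true ∧ p.1 = (f n k).1}) = {p | ∃ k, v n k = true ∧ p = f n k} := by
    ext p
    simp only [Set.mem_ofPred_eq]
    exact exists_congr fun k => and_congr_right fun _ => Subtype.ext_iff.symm
  show (RO.gen {p : Cnd F ℓ | ∃ k, v n k = true ∧ p.1 = (f n k).1})ᶜ = y n
  rw [this, hfv, compl_compl]

theorem valN_congr (h : Agr G F i) {Y : Name P₀ I}
    (hY : ∀ n k, (Y.1 n k).Valid G ∧ (Y.1 n k).lt i) (hi : i ≤ ℓ) (n : ℕ) :
    (embR h (valN Y n : RO (Cnd G i)) : RO (Cnd F ℓ)) = valN Y n := by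
  refine RO.ext' fun p => ?_
  rw [mem_embR h hi, valN, valN, RO.mem_compl, RO.mem_compl]
  constructor
  · intro hp q hq hqA
    obtain ⟨r, hr, a, ⟨k, hk, hak⟩, hra⟩ := RO.mem_gen.1 hqA q le_rfl
    refine hp (resTo h r) ((resTo_mono h (hr.trans hq))) ?_
    let b : Cnd G i := ⟨Y.1 n k, hY n k⟩
    have hab : a = incTo h hi b := Subtype.ext hak
    have hrb : resTo h r ≤ b := by
      have := resTo_mono h hra
      rwa [hab, resTo_incTo] at this
    rw [RO.mem_gen]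
    intro q' hq'
    exact ⟨q', le_rfl, b, ⟨k, hk, rfl⟩, hq'.trans hrb⟩
  · intro hp q hq hqA
    obtain ⟨r, hr, a, ⟨k, hk, hak⟩, hra⟩ := RO.mem_gen.1 hqA q le_rfl
    obtain ⟨r', hr', hrr⟩ := exists_glue h hi p r (hr.trans hq)
    refine hp r' hr' ?_
    have h1 : r' ≤ incTo h hi a := by
      refine (le_incTo_resTo h hi r').trans ?_
      rw [hrr]
      exact (incTo_mono h hi).2 hra
    rw [RO.mem_gen]
    intro q' hq'
    exact ⟨q', le_rfl, incTo h hi a, ⟨k, hk, hak⟩, hq'.trans h1⟩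

end Iter

end Pool.Agent.Helper94.BA
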